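import Pool.Agent.H1.GamB
import Pool.Agent.H1.GamDefs

set_option autoImplicit false

namespace Pool.Agent.Results.MP_45ac3c_an.Gamma
open Pool.Agent.H1.Gam

theorem result :
    (∀ α : ℝ, 1 ≤ α → gam α = α ∧ Works α α) ∧ ∀ α : ℝ, 1 < α → Attained α α := by
  have hw : ∀ α : ℝ, Works α α := fun α H _ _ _ T hT => by
    obtain ⟨h1, c, -, h2⟩ := hT
    refine ⟨3 * c, ?_⟩
    rintro _ ⟨n, rfl⟩
    simp only
    rw [div_le_iff₀ (by positivity)]
    exact upper T α c h1 h2 n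
  refine ⟨fun α hα => ⟨IsLeast.csInf_eq ⟨⟨by linarith, hw α⟩, fun γ hγ => ?_⟩, hw α⟩,
    fun α hα => ⟨HS, inferInstance, inferInstance, inferInstance, ex2 hα⟩⟩
  by_contra h
  rw [not_le] at h
  rcases hα.eq_or_lt with rfl | hα
  · obtain ⟨T, h1, h2⟩ := ex1 (β := (γ + 1) / 2) (by linarith [hγ.1]) (by linarith)
    exact not_bdd (by linarith) h2 (hγ.2 HS T h1)
  · obtain ⟨T, h1, h2⟩ := ex2 hα
    exact not_bdd h h2 (hγ.2 HS T h1)

end Pool.Agent.Results.MP_45ac3c_an.Gamma
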